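import Mathlib

set_option autoImplicit false

namespace Pool.Agent.H5.HP

open MeasureTheory Filter Topology
open scoped InnerProductSpace

variable {H : Type*} [NormedAddCommGroup H] [InnerProductSpace ℂ H]

/-- A (not necessarily continuous) unitary representation of the additive group `ℝ`. -/
structure IsRep (V : ℝ → H →L[ℂ] H) : Prop where
  add : ∀ x y ζ, V (x + y) ζ = V x (V y ζ)
  zero : ∀ ζ, V 0 ζ = ζ
  inner : ∀ x ζ ζ', ⟪V x ζ, V x ζ'⟫_ℂ = ⟪ζ, ζ'⟫_ℂ

theorem IsRep.inner_left {V : ℝ → H →L[ℂ] H} (hV : IsRep V) (x : ℝ) (ζ ζ' : H) :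
    ⟪V x ζ, ζ'⟫_ℂ = ⟪ζ, V (-x) ζ'⟫_ℂ := by
  rw [← hV.inner (-x) (V x ζ) ζ', ← hV.add, neg_add_cancel, hV.zero]

theorem IsRep.inner_right {V : ℝ → H →L[ℂ] H} (hV : IsRep V) (x : ℝ) (ζ ζ' : H) :
    ⟪ζ, V x ζ'⟫_ℂ = ⟪V (-x) ζ, ζ'⟫_ℂ := by
  rw [hV.inner_left, neg_neg]

theorem IsRep.norm_eq {V : ℝ → H →L[ℂ] H} (hV : IsRep V) (x : ℝ) (ζ : H) : ‖V x ζ‖ = ‖ζ‖ := by
  have := hV.inner x ζ ζ
  rw [inner_self_eq_norm_sq_to_K, inner_self_eq_norm_sq_to_K] at this
  have h2 : ‖V x ζ‖ ^ 2 = ‖ζ‖ ^ 2 := by exact_mod_cast this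
  exact (sq_eq_sq₀ (norm_nonneg _) (norm_nonneg _)).mp h2

theorem aem_closed {F : ℝ → H → ℂ} (hF : ∀ x, Continuous (F x)) :
    IsClosed {ζ : H | AEMeasurable (fun x => F x ζ) (volume : Measure ℝ)} := by
  rw [← isSeqClosed_iff_isClosed]
  intro u ζ hu hlim
  refine aemeasurable_of_tendsto_metrizable_ae atTop (fun n => hu n) ?_
  exact Filter.Eventually.of_forall fun x => ((hF x).tendsto ζ).comp hlim

/-- The subspace of vectors with measurable coefficients. -/
noncomputable def Hm (V : ℝ → H →L[ℂ] H) : Submodule ℂ H where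
  carrier := {ζ | ∀ η : H, AEMeasurable (fun x => ⟪η, V x ζ⟫_ℂ) (volume : Measure ℝ)}
  add_mem' := by
    intro a b ha hb η
    simp only [map_add, inner_add_right]
    exact (ha η).add (hb η)
  zero_mem' := by
    intro η
    simp only [map_zero, inner_zero_right]
    exact aemeasurable_const
  smul_mem' := by
    intro c a ha η
    simp only [map_smul, inner_smul_right]
    exact (ha η).const_mul c

theorem mem_Hm {V : ℝ → H →L[ℂ] H} {ζ : H} :
    ζ ∈ Hm V ↔ ∀ η : H, AEMeasurable (fun x => ⟪η, V x ζ⟫_ℂ) (volume : Measure ℝ) := Iff.rfl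

theorem isClosed_Hm (V : ℝ → H →L[ℂ] H) : IsClosed (Hm V : Set H) := by
  have : (Hm V : Set H) = ⋂ η : H, {ζ | AEMeasurable (fun x => ⟪η, V x ζ⟫_ℂ) (volume : Measure ℝ)} := by
    ext ζ
    simp only [Set.mem_iInter]
    exact Iff.rfl
  rw [this]
  exact isClosed_iInter fun η => aem_closed (F := fun x ζ => ⟪η, V x ζ⟫_ℂ) fun x => by fun_prop

theorem aem_translate {g : ℝ → ℂ} (hg : AEMeasurable g (volume : Measure ℝ)) (s : ℝ) :
    AEMeasurable (fun x => g (x + s)) (volume : Measure ℝ) :=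
  hg.comp_quasiMeasurePreserving (measurePreserving_add_right volume s).quasiMeasurePreserving

theorem aem_reflect {g : ℝ → ℂ} (hg : AEMeasurable g (volume : Measure ℝ)) (s : ℝ) :
    AEMeasurable (fun x => g (s - x)) (volume : Measure ℝ) :=
  hg.comp_quasiMeasurePreserving (Measure.measurePreserving_sub_left volume s).quasiMeasurePreserving

theorem Hm_invariant {V : ℝ → H →L[ℂ] H} (hV : IsRep V) {ζ : H} (hζ : ζ ∈ Hm V) (s : ℝ) :
    V s ζ ∈ Hm V := by
  intro η
  have : (fun x => ⟪η, V x (V s ζ)⟫_ℂ) = fun x => (fun y => ⟪η, V y ζ⟫_ℂ) (x + s) := by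
    ext x
    simp only
    rw [hV.add]
  rw [this]
  exact aem_translate (hζ η) s

/-- The main lemma: a measurable coefficient against a vector orthogonal to `Hm` vanishes. -/
theorem coeff_eq_zero [CompleteSpace H] {V : ℝ → H →L[ℂ] H} (hV : IsRep V) {Ξ Η : H}
    (hm : AEMeasurable (fun x => ⟪Η, V x Ξ⟫_ℂ) (volume : Measure ℝ)) (hΗ : Η ∈ (Hm V)ᗮ) (x : ℝ) :
    ⟪Η, V x Ξ⟫_ℂ = 0 := by
  set M : Submodule ℂ H := (Submodule.span ℂ (Set.range fun s : ℝ => V s Ξ)).topologicalClosure
    with hM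
  have hMc : IsClosed (M : Set H) := Submodule.isClosed_topologicalClosure _
  have : CompleteSpace M := hMc.completeSpace_coe
  have hgen : ∀ s, V s Ξ ∈ M := fun s =>
    Submodule.le_topologicalClosure _ (Submodule.subset_span ⟨s, rfl⟩)
  -- closed submodules containing the orbit contain `M`
  have hMle : ∀ N : Submodule ℂ H, IsClosed (N : Set H) → (∀ s, V s Ξ ∈ N) → M ≤ N := by
    intro N hN hs
    apply Submodule.topologicalClosure_minimal _ _ hN
    rw [Submodule.span_le]
    rintro _ ⟨s, rfl⟩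
    exact hs s
  have hMinv : ∀ (s : ℝ) (ζ : H), ζ ∈ M → V s ζ ∈ M := by
    intro s ζ hζ
    have : M ≤ M.comap (V s : H →ₗ[ℂ] H) := by
      apply hMle
      · exact hMc.preimage (V s).continuous
      · intro r
        change V s (V r Ξ) ∈ M
        rw [← hV.add]
        exact hgen _
    exact this hζ
  set Ξ' : H := M.starProjection Η with hΞ'
  have hΞ'M : Ξ' ∈ M := Submodule.starProjection_apply_mem _ _
  have horth : ∀ ζ ∈ M, ⟪ζ, Η⟫_ℂ = ⟪ζ, Ξ'⟫_ℂ := by
    intro ζ hζ
    have h1 : Η - Ξ' ∈ Mᗮ := Submodule.sub_starProjection_mem_orthogonal _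
    have h2 := (Submodule.mem_orthogonal M _).mp h1 ζ hζ
    rw [inner_sub_right, sub_eq_zero] at h2
    exact h2
  -- coefficients of `Ξ'` against `M`
  have hcoef : ∀ η ∈ M, AEMeasurable (fun x => ⟪V x Ξ', η⟫_ℂ) (volume : Measure ℝ) := by
    let N : Submodule ℂ H :=
      { carrier := {η | AEMeasurable (fun x => ⟪V x Ξ', η⟫_ℂ) (volume : Measure ℝ)}
        add_mem' := by
          intro a b ha hb
          simp only [Set.mem_ofPred_eq, inner_add_right]
          exact AEMeasurable.add ha hb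
        zero_mem' := by
          simp only [Set.mem_ofPred_eq, inner_zero_right]
          exact aemeasurable_const
        smul_mem' := by
          intro c a ha
          simp only [Set.mem_ofPred_eq, inner_smul_right]
          exact AEMeasurable.const_mul ha c }
    have hN : M ≤ N := by
      apply hMle
      · exact aem_closed (F := fun x η => ⟪V x Ξ', η⟫_ℂ) fun x => by fun_prop
      · intro s
        change AEMeasurable (fun x => ⟪V x Ξ', V s Ξ⟫_ℂ) (volume : Measure ℝ)
        have e : (fun x => ⟪V x Ξ', V s Ξ⟫_ℂ) = fun x => (fun y => ⟪Η, V y Ξ⟫_ℂ) (s - x) := by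
          ext x
          simp only
          rw [hV.inner_left, ← hV.add, show -x + s = s - x by ring, ← inner_conj_symm,
            ← horth _ (hgen _), inner_conj_symm]
        rw [e]
        exact aem_reflect hm s
    exact fun η hη => hN hη
  have hΞm : Ξ' ∈ Hm V := by
    intro η
    have e : (fun x => ⟪η, V x Ξ'⟫_ℂ) =
        fun x => (starRingEnd ℂ) ⟪V x Ξ', M.starProjection η⟫_ℂ := by
      ext x
      rw [inner_conj_symm]
      have h1 : η - M.starProjection η ∈ Mᗮ := Submodule.sub_starProjection_mem_orthogonal _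
      have h2 := (Submodule.mem_orthogonal' M _).mp h1 (V x Ξ') (hMinv x Ξ' hΞ'M)
      rw [inner_sub_left, sub_eq_zero] at h2
      exact h2
    rw [e]
    exact Complex.continuous_conj.measurable.comp_aemeasurable
      (hcoef _ (Submodule.starProjection_apply_mem _ _))
  have hzero : Ξ' = 0 := by
    have h1 : ⟪Ξ', Η⟫_ℂ = 0 := (Submodule.mem_orthogonal _ _).mp hΗ Ξ' hΞm
    rw [horth Ξ' hΞ'M] at h1
    exact inner_self_eq_zero.mp h1
  rw [← inner_conj_symm, horth _ (hgen x), hzero, inner_zero_right, map_zero]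

end Pool.Agent.H5.HP
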