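import Mathlib
import Pool.Agent.H5.HP.Meas

set_option autoImplicit false

namespace Pool.Agent.H5.HP

open MeasureTheory Filter Topology
open scoped InnerProductSpace ENNReal

variable {H : Type*} [NormedAddCommGroup H] [InnerProductSpace ℂ H] {ι : Type*}

/-- twisting characters -/
structure IsTwist (e : ι → ℝ → ℂ) : Prop where
  add : ∀ i x y, e i (x + y) = e i x * e i y
  zero : ∀ i, e i 0 = 1
  norm : ∀ i x, ‖e i x‖ = 1
  cont : ∀ i, Continuous (e i)

theorem memlp_twist {V : ℝ → H →L[ℂ] H} (hV : IsRep V) {e : ι → ℝ → ℂ} (he : IsTwist e) (x : ℝ)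
    (Θ : lp (fun _ : ι => H) 2) : Memℓp (fun i => e i x • V x (Θ i)) 2 := by
  apply memℓp_gen
  have := (lp.memℓp Θ).summable (by norm_num)
  convert this using 3 with i
  rw [norm_smul, he.norm, one_mul, hV.norm_eq]

/-- The twisted direct sum of copies of a representation. -/
noncomputable def W {V : ℝ → H →L[ℂ] H} (hV : IsRep V) {e : ι → ℝ → ℂ} (he : IsTwist e) (x : ℝ) :
    lp (fun _ : ι => H) 2 →L[ℂ] lp (fun _ : ι => H) 2 :=
  LinearMap.mkContinuous
    { toFun := fun Θ => ⟨fun i => e i x • V x (Θ i), memlp_twist hV he x Θ⟩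
      map_add' := by
        intro Θ Θ'
        ext i
        change e i x • V x (Θ i + Θ' i) = e i x • V x (Θ i) + e i x • V x (Θ' i)
        rw [map_add, smul_add]
      map_smul' := by
        intro c Θ
        ext i
        change e i x • V x (c • Θ i) = c • (e i x • V x (Θ i))
        rw [map_smul, smul_comm] } 1 (by
    intro Θ
    rw [one_mul, lp.norm_eq_tsum_rpow (by norm_num), lp.norm_eq_tsum_rpow (by norm_num)]
    apply le_of_eq
    congr 1
    apply tsum_congr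
    intro i
    change ‖e i x • V x (Θ i)‖ ^ _ = _
    rw [norm_smul, he.norm, one_mul, hV.norm_eq])

theorem W_apply {V : ℝ → H →L[ℂ] H} (hV : IsRep V) {e : ι → ℝ → ℂ} (he : IsTwist e) (x : ℝ)
    (Θ : lp (fun _ : ι => H) 2) (i : ι) : W hV he x Θ i = e i x • V x (Θ i) := rfl

theorem W_isRep {V : ℝ → H →L[ℂ] H} (hV : IsRep V) {e : ι → ℝ → ℂ} (he : IsTwist e) :
    IsRep (W hV he) where
  add := by
    intro x y Θ
    ext i
    rw [W_apply, W_apply, W_apply, he.add, hV.add, map_smul, smul_smul]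
  zero := by
    intro Θ
    ext i
    rw [W_apply, he.zero, hV.zero, one_smul]
  inner := by
    intro x Θ Θ'
    rw [lp.inner_eq_tsum, lp.inner_eq_tsum]
    apply tsum_congr
    intro i
    rw [W_apply, W_apply, inner_smul_left, inner_smul_right, hV.inner, ← mul_assoc,
      Complex.conj_mul', he.norm]
    simp

theorem component_mem {V : ℝ → H →L[ℂ] H} (hV : IsRep V) {e : ι → ℝ → ℂ} (he : IsTwist e)
    {Θ : lp (fun _ : ι => H) 2} (hΘ : Θ ∈ Hm (W hV he)) (i : ι) : Θ i ∈ Hm V := by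
  classical
  intro η
  have h1 := hΘ (lp.single 2 i η)
  have e1 : (fun x => ⟪η, V x (Θ i)⟫_ℂ) =
      fun x => (starRingEnd ℂ) (e i x) * ⟪lp.single 2 i η, W hV he x Θ⟫_ℂ := by
    ext x
    rw [lp.inner_single_left, W_apply, inner_smul_right, ← mul_assoc, Complex.conj_mul', he.norm]
    simp
  rw [e1]
  exact (Complex.continuous_conj.comp (he.cont i)).measurable.aemeasurable.mul h1

theorem orth_of_components {V : ℝ → H →L[ℂ] H} (hV : IsRep V) {e : ι → ℝ → ℂ} (he : IsTwist e)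
    {Η : lp (fun _ : ι => H) 2} (hΗ : ∀ i, Η i ∈ (Hm V)ᗮ) : Η ∈ (Hm (W hV he))ᗮ := by
  rw [Submodule.mem_orthogonal]
  intro Θ hΘ
  rw [lp.inner_eq_tsum]
  have : ∀ i, ⟪Θ i, Η i⟫_ℂ = 0 := fun i =>
    (Submodule.mem_orthogonal _ _).mp (hΗ i) _ (component_mem hV he hΘ i)
  simp_rw [this, tsum_zero]

theorem memlp_smul {a : ι → ℂ} (ha : Summable fun i => ‖a i‖ ^ 2) {η : ι → H} {C : ℝ}
    (hη : ∀ i, ‖η i‖ ≤ C) : Memℓp (fun i => a i • η i) 2 := by
  apply memℓp_gen
  have h2 : (2 : ℝ≥0∞).toReal = ((2 : ℕ) : ℝ) := by norm_num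
  simp_rw [h2, Real.rpow_natCast]
  refine Summable.of_nonneg_of_le (fun i => by positivity) (fun i => ?_) (ha.mul_right (C ^ 2))
  rw [norm_smul, mul_pow]
  exact mul_le_mul_of_nonneg_left (pow_le_pow_left₀ (norm_nonneg _) (hη i) 2) (by positivity)

/-- Vanishing of a measurable twisted sum of coefficients. -/
theorem twisted_zero [CompleteSpace H] {V : ℝ → H →L[ℂ] H} (hV : IsRep V) {e : ι → ℝ → ℂ}
    (he : IsTwist e) {k : ι → ℂ} (hk : Summable fun i => ‖k i‖) {ξ η : ι → H} {C : ℝ}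
    (hξ : ∀ i, ‖ξ i‖ ≤ C) (hηC : ∀ i, ‖η i‖ ≤ C) (hη : ∀ i, η i ∈ (Hm V)ᗮ)
    (hm : AEMeasurable (fun x => ∑' i, k i * e i x * ⟪η i, V x (ξ i)⟫_ℂ) (volume : Measure ℝ))
    (x : ℝ) : ∑' i, k i * e i x * ⟪η i, V x (ξ i)⟫_ℂ = 0 := by
  set b : ι → ℝ := fun i => Real.sqrt ‖k i‖ with hb
  set a : ι → ℂ := fun i => k i / (b i : ℂ) with ha
  have hbsq : ∀ i, b i ^ 2 = ‖k i‖ := fun i => Real.sq_sqrt (norm_nonneg _)
  have hab : ∀ i, (b i : ℂ) * a i = k i := by
    intro i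
    by_cases h0 : b i = 0
    · have : ‖k i‖ = 0 := by rw [← hbsq, h0]; norm_num
      rw [norm_eq_zero] at this
      rw [h0, this]; simp
    · simp only [ha]
      have : (b i : ℂ) ≠ 0 := by exact_mod_cast h0
      field_simp
  have hasq : ∀ i, ‖a i‖ ^ 2 = ‖k i‖ := by
    intro i
    by_cases h0 : b i = 0
    · have : ‖k i‖ = 0 := by rw [← hbsq, h0]; norm_num
      simp only [ha]
      rw [h0]; simp [this]
    · simp only [ha]
      rw [norm_div, Complex.norm_real, Real.norm_eq_abs, div_pow, sq_abs, hbsq]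
      have : ‖k i‖ ≠ 0 := by rw [← hbsq]; positivity
      field_simp
  let Ξ : lp (fun _ : ι => H) 2 := ⟨fun i => a i • ξ i, memlp_smul (by simp_rw [hasq]; exact hk) hξ⟩
  let Η : lp (fun _ : ι => H) 2 := ⟨fun i => (b i : ℂ) • η i, memlp_smul (by
    have : ∀ i, ‖(b i : ℂ)‖ ^ 2 = ‖k i‖ := by
      intro i
      rw [Complex.norm_real, Real.norm_eq_abs, sq_abs, hbsq]
    simp_rw [this]; exact hk) hηC⟩
  have key : ∀ x, ⟪Η, W hV he x Ξ⟫_ℂ = ∑' i, k i * e i x * ⟪η i, V x (ξ i)⟫_ℂ := by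
    intro x
    rw [lp.inner_eq_tsum]
    apply tsum_congr
    intro i
    rw [W_apply]
    change ⟪(b i : ℂ) • η i, e i x • V x (a i • ξ i)⟫_ℂ = _
    rw [map_smul, inner_smul_left, inner_smul_right, inner_smul_right, Complex.conj_ofReal,
      ← hab i]
    ring
  have hΗ : Η ∈ (Hm (W hV he))ᗮ := by
    apply orth_of_components
    intro i
    exact Submodule.smul_mem _ _ (hη i)
  rw [← key]
  apply coeff_eq_zero (W_isRep hV he) _ hΗ
  simp_rw [key]
  exact hm

end Pool.Agent.H5.HP
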