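import Mathlib

set_option autoImplicit false

namespace Pool.Agent.H5.HP

open scoped ComplexOrder InnerProductSpace

/-- GNS representation of a positive functional, without mentioning the order. -/
theorem exists_gns {A : Type} [CStarAlgebra A] (φ : A →ₗ[ℂ] ℂ) (h : ∀ a, 0 ≤ φ (star a * a)) :
    ∃ (H : Type) (_ : NormedAddCommGroup H) (_ : InnerProductSpace ℂ H) (_ : CompleteSpace H)
      (π : A →⋆ₐ[ℂ] (H →L[ℂ] H)) (κ : A → H),
      ∀ a b c : A, ⟪κ a, π b (κ c)⟫_ℂ = φ (star a * (b * c)) := by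
  let _ := CStarAlgebra.spectralOrder A
  let _ := CStarAlgebra.spectralOrderedRing A
  let f : A →ₚ[ℂ] ℂ := PositiveLinearMap.mk₀ φ (fun x hx => by
    obtain ⟨b, hb⟩ := CStarAlgebra.nonneg_iff_eq_star_mul_self.mp hx
    rw [hb]; exact h b)
  refine ⟨f.GNS, inferInstance, inferInstance, inferInstance, f.gnsStarAlgHom,
    fun a => ((f.toPreGNS a : f.PreGNS) : f.GNS), ?_⟩
  intro a b c
  change ⟪((f.toPreGNS a : f.PreGNS) : f.GNS),
    f.gnsNonUnitalStarAlgHom b ((f.toPreGNS c : f.PreGNS) : f.GNS)⟫_ℂ = _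
  rw [PositiveLinearMap.gnsNonUnitalStarAlgHom_apply_coe, UniformSpace.Completion.inner_coe,
    PositiveLinearMap.preGNS_inner_def]
  rfl

theorem hb_sublinear {V E : Type*} [AddCommGroup V] [Module ℝ V] [AddCommGroup E] [Module ℝ E]
    (T : V →ₗ[ℝ] E) (φ : V →ₗ[ℝ] ℝ) (N : E → ℝ)
    (N_hom : ∀ c : ℝ, 0 < c → ∀ x, N (c • x) = c * N x) (N_add : ∀ x y, N (x + y) ≤ N x + N y)
    (h : ∀ v, φ v ≤ N (T v)) : ∃ θ : E →ₗ[ℝ] ℝ, (∀ v, θ (T v) = φ v) ∧ ∀ x, θ x ≤ N x := by
  have N0 : N 0 = 0 := by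
    have := N_hom 2 (by norm_num) 0
    rw [smul_zero] at this
    linarith
  have hker : LinearMap.ker T ≤ LinearMap.ker φ := by
    intro v hv
    rw [LinearMap.mem_ker] at hv ⊢
    have h1 := h v
    have h2 := h (-v)
    rw [hv, N0] at h1
    rw [map_neg, map_neg, hv, neg_zero, N0] at h2
    linarith
  let ψ₀ : LinearMap.range T →ₗ[ℝ] ℝ :=
    ((LinearMap.ker T).liftQ φ hker).comp T.quotKerEquivRange.symm.toLinearMap
  have hψ : ∀ (v : V) (hv : T v ∈ LinearMap.range T), ψ₀ ⟨T v, hv⟩ = φ v := by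
    intro v hv
    simp only [ψ₀, LinearMap.comp_apply, LinearEquiv.coe_coe]
    rw [LinearMap.quotKerEquivRange_symm_apply_image, Submodule.mkQ_apply, Submodule.liftQ_apply]
  obtain ⟨g, hg, hg'⟩ := exists_extension_of_le_sublinear ⟨LinearMap.range T, ψ₀⟩ N N_hom N_add (by
    rintro ⟨_, v, rfl⟩
    change ψ₀ ⟨T v, _⟩ ≤ _
    rw [hψ]
    exact h v)
  refine ⟨g, fun v => ?_, hg'⟩
  have := hg ⟨T v, LinearMap.mem_range_self T v⟩
  exact this.trans (hψ v _)

/-- The sublinear functional `g ↦ C * sup (Re g)⁺`. -/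
noncomputable def subl {S : Type} [TopologicalSpace S] (C : ℝ) (g : BoundedContinuousFunction S ℂ) :
    ℝ := C * ⨆ s : S, max (g s).re 0

theorem bdd_subl {S : Type} [TopologicalSpace S] (g : BoundedContinuousFunction S ℂ) :
    BddAbove (Set.range fun s : S => max (g s).re 0) := by
  refine ⟨‖g‖, ?_⟩
  rintro _ ⟨s, rfl⟩
  exact max_le ((Complex.re_le_norm _).trans (g.norm_coe_le_norm s)) (norm_nonneg _)

theorem subl_hom {S : Type} [TopologicalSpace S] (C : ℝ) (c : ℝ) (hc : 0 < c)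
    (g : BoundedContinuousFunction S ℂ) : subl C (c • g) = c * subl C g := by
  unfold subl
  have : ∀ s, max ((c • g) s).re 0 = c * max (g s).re 0 := by
    intro s
    change max (c • g s).re 0 = _
    rw [Complex.real_smul, Complex.re_ofReal_mul,
      mul_max_of_nonneg _ _ hc.le, mul_zero]
  simp_rw [this]
  rw [← Real.mul_iSup_of_nonneg hc.le]
  ring

theorem subl_add {S : Type} [TopologicalSpace S] [Nonempty S] {C : ℝ} (hC : 0 ≤ C)
    (g h : BoundedContinuousFunction S ℂ) : subl C (g + h) ≤ subl C g + subl C h := by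
  unfold subl
  rw [← mul_add]
  apply mul_le_mul_of_nonneg_left _ hC
  apply ciSup_le
  intro s
  have h1 : max (g s).re 0 ≤ ⨆ s, max (g s).re 0 := le_ciSup (bdd_subl g) s
  have h2 : max (h s).re 0 ≤ ⨆ s, max (h s).re 0 := le_ciSup (bdd_subl h) s
  rw [BoundedContinuousFunction.coe_add, Pi.add_apply, Complex.add_re]
  apply max_le
  · linarith [le_max_left (g s).re 0, le_max_left (h s).re 0]
  · linarith [le_max_right (g s).re 0, le_max_right (h s).re 0]

theorem subl_nonpos {S : Type} [TopologicalSpace S] [Nonempty S] {C : ℝ} 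
    (g : BoundedContinuousFunction S ℂ) (hg : ∀ s, (g s).re ≤ 0) : subl C g = 0 := by
  unfold subl
  have : ∀ s, max (g s).re 0 = 0 := fun s => max_eq_right (hg s)
  simp_rw [this]
  simp

/-- Complex linear positive extension. -/
theorem exists_positive {V : Type*} [AddCommGroup V] [Module ℝ V] {S : Type} [TopologicalSpace S]
    [Nonempty S] {C : ℝ} (hC : 0 ≤ C) (T : V →ₗ[ℝ] BoundedContinuousFunction S ℂ) (φ : V →ₗ[ℝ] ℝ)
    (h : ∀ v, φ v ≤ subl C (T v)) :
    ∃ Θ : BoundedContinuousFunction S ℂ →ₗ[ℂ] ℂ, (∀ a, 0 ≤ Θ (star a * a)) ∧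
      ∀ v, (Θ (T v)).re = φ v := by
  obtain ⟨θ, hθ, hN⟩ := hb_sublinear T φ (subl C) (fun c hc x => subl_hom C c hc x)
    (fun x y => subl_add hC x y) h
  have hre : ∀ g : BoundedContinuousFunction S ℂ, (∀ s, 0 ≤ (g s).re) → 0 ≤ θ g := by
    intro g hg
    have h1 := hN (-g)
    rw [subl_nonpos (-g) (fun s => by
      rw [BoundedContinuousFunction.coe_neg, Pi.neg_apply, Complex.neg_re]
      linarith [hg s]), map_neg] at h1
    linarith
  have hz : ∀ g : BoundedContinuousFunction S ℂ, (∀ s, (g s).re = 0) → θ g = 0 := by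
    intro g hg
    apply le_antisymm
    · have := hN g
      rwa [subl_nonpos g (fun s => (hg s).le)] at this
    · exact hre g (fun s => (hg s).ge)
  let Θ : BoundedContinuousFunction S ℂ →ₗ[ℂ] ℂ := Module.Dual.extendRCLike (𝕜 := ℂ) θ
  have hΘre : ∀ g, (Θ g).re = θ g := fun g => Module.Dual.re_extendRCLike_apply (𝕜 := ℂ) θ g
  have hΘim : ∀ g, (Θ g).im = - θ (Complex.I • g) := fun g =>
    Module.Dual.im_extendRCLike_apply (𝕜 := ℂ) θ g
  refine ⟨Θ, ?_, ?_⟩
  · intro a
    rw [Complex.nonneg_iff]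
    constructor
    · rw [hΘre]
      apply hre
      intro s
      rw [BoundedContinuousFunction.coe_mul, Pi.mul_apply, BoundedContinuousFunction.star_apply,
        Complex.star_def, mul_comm, Complex.mul_conj, Complex.ofReal_re]
      exact Complex.normSq_nonneg _
    · rw [hΘim, hz, neg_zero]
      intro s
      change (Complex.I • (star (a s) * a s)).re = 0
      rw [smul_eq_mul, Complex.star_def, mul_comm ((starRingEnd ℂ) (a s)) (a s), Complex.mul_conj, Complex.I_mul_re,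
        Complex.ofReal_im, neg_zero]
  · intro v
    rw [hΘre, hθ]

end Pool.Agent.H5.HP
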