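import Mathlib
import Pool.Agent.H5.RA.Key
import Pool.Agent.H5.HP.Dsum

set_option autoImplicit false

namespace Pool.Agent.H5.HP

open MeasureTheory Filter Topology SchwartzMap FourierTransform Set Pool.Agent.H5.RA
open scoped InnerProductSpace ENNReal Real

/-- Exact form of the Fourier transform of an affinely rescaled and modulated function. -/
theorem fourier_affine (p : 𝓢(ℝ, ℂ)) {h : ℝ} (hh : 0 < h) (s τ ξ : ℝ) :
    𝓕 (fun y : ℝ => p (s + h * y) * Complex.exp (((-2 * π * (s + h * y) * τ : ℝ) : ℂ) * Complex.I)) ξ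
      = (h⁻¹ : ℝ) * (Complex.exp (((2 * π * (s / h) * ξ : ℝ) : ℂ) * Complex.I) *
        (𝓕 p) (ξ / h + τ)) := by
  rw [Real.fourier_real_eq_integral_exp_smul]
  set F : ℝ → ℂ := fun x => Complex.exp (((-2 * π * ((x - s) / h) * ξ : ℝ) : ℂ) * Complex.I) •
    (p x * Complex.exp (((-2 * π * x * τ : ℝ) : ℂ) * Complex.I)) with hF
  have e1 : (∫ v : ℝ, Complex.exp (((-2 * π * v * ξ : ℝ) : ℂ) * Complex.I) •
      (p (s + h * v) * Complex.exp (((-2 * π * (s + h * v) * τ : ℝ) : ℂ) * Complex.I)))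
      = ∫ v : ℝ, F (s + h * v) := by
    congr 1
    ext v
    rw [hF]
    simp only
    have : (s + h * v - s) / h = v := by field_simp; ring
    rw [this]
  rw [e1]
  have e2 : (∫ v : ℝ, F (s + h * v)) = |h⁻¹| • ∫ x : ℝ, F (s + x) :=
    MeasureTheory.Measure.integral_comp_mul_left (fun x => F (s + x)) h
  rw [e2, integral_add_left_eq_self F s]
  have e3 : (∫ x : ℝ, F x) = Complex.exp (((2 * π * (s / h) * ξ : ℝ) : ℂ) * Complex.I) *
      (𝓕 p) (ξ / h + τ) := by
    rw [SchwartzMap.fourier_coe, Real.fourier_real_eq_integral_exp_smul, ← integral_const_mul]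
    congr 1
    ext x
    rw [hF]
    simp only [smul_eq_mul]
    have hexp : Complex.exp (((-2 * π * ((x - s) / h) * ξ : ℝ) : ℂ) * Complex.I) *
        Complex.exp (((-2 * π * x * τ : ℝ) : ℂ) * Complex.I) =
        Complex.exp (((2 * π * (s / h) * ξ : ℝ) : ℂ) * Complex.I) *
        Complex.exp (((-2 * π * x * (ξ / h + τ) : ℝ) : ℂ) * Complex.I) := by
      rw [← Complex.exp_add, ← Complex.exp_add]
      congr 1
      push_cast
      have : (h : ℂ) ≠ 0 := by exact_mod_cast hh.ne'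
      field_simp
      ring
    linear_combination (p x) * hexp
  rw [e3, abs_of_pos (inv_pos.mpr hh), Complex.real_smul]

/-- Poisson summation in exact form. -/
theorem poisson_exact {p : 𝓢(ℝ, ℂ)} (hp : HasCompactSupport p) {h : ℝ} (hh : 0 < h) (s τ : ℝ) :
    ∑' n : ℤ, p (s + h * n) * Complex.exp (((-2 * π * (s + h * n) * τ : ℝ) : ℂ) * Complex.I) =
      ∑' n : ℤ, (h⁻¹ : ℝ) * (Complex.exp (((2 * π * (s / h) * n : ℝ) : ℂ) * Complex.I) *
        (𝓕 p) ((n : ℝ) / h + τ)) := by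
  obtain ⟨D, hD0, hD⟩ := exists_decay (𝓕 p)
  set q : ℝ → ℂ := fun y : ℝ =>
    p (s + h * y) * Complex.exp (((-2 * π * (s + h * y) * τ : ℝ) : ℂ) * Complex.I) with hq
  obtain ⟨hs, hb⟩ := tsum_bound hD (M := ‖(𝓕 p).toZeroAtInfty‖) (fun ξ => by
    rw [← ZeroAtInftyContinuousMap.norm_toBCF_eq_norm]
    exact (𝓕 p).toZeroAtInfty.toBCF.norm_coe_le_norm ξ) hh τ
  have hcont : Continuous q := by
    apply Continuous.mul
    · exact p.continuous.comp (by fun_prop)
    · fun_prop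
  have hsum : Summable fun n : ℤ => ‖𝓕 q n‖ := by
    have : (fun n : ℤ => ‖𝓕 q n‖) = fun n : ℤ => h⁻¹ * ‖(𝓕 p) ((n : ℝ) / h + τ)‖ := by
      ext n
      exact norm_fourier_affine p hh s τ n
    rw [this]
    exact hs.mul_left _
  have hO : q =O[cocompact ℝ] (fun x : ℝ => |x| ^ (-(2 : ℝ))) := by
    have hpc : HasCompactSupport q := by
      have h1 : HasCompactSupport (fun y : ℝ => p (s + h * y)) := by
        have := hp.comp_homeomorph ((Homeomorph.mulLeft₀ h hh.ne').trans (Homeomorph.addLeft s))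
        exact this
      exact h1.mul_right
    have h2 : q =ᶠ[cocompact ℝ] 0 := by
      have := hpc.isCompact.compl_mem_cocompact
      filter_upwards [this] with x hx
      exact image_eq_zero_of_notMem_tsupport hx
    exact h2.trans_isBigO (Asymptotics.isBigO_zero _ _)
  have hP := Real.tsum_eq_tsum_fourier_of_rpow_decay_of_summable hcont one_lt_two hO hsum.of_norm 0
  have e0 : (∑' n : ℤ, p (s + h * n) *
      Complex.exp (((-2 * π * (s + h * n) * τ : ℝ) : ℂ) * Complex.I)) = ∑' n : ℤ, q (0 + n) := by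
    apply tsum_congr
    intro n
    rw [zero_add]
  rw [e0, hP]
  apply tsum_congr
  intro n
  have : (fourier n ((0 : ℝ) : UnitAddCircle) : ℂ) = 1 := by simp
  rw [this, mul_one, hq]
  exact fourier_affine p hh s τ n

theorem fourier_summable (p : 𝓢(ℝ, ℂ)) {h : ℝ} (hh : 0 < h) :
    ∃ K : ℝ, ∀ τ : ℝ, Summable (fun n : ℤ => ‖(𝓕 p) ((n : ℝ) / h + τ)‖) ∧
      ∑' n : ℤ, ‖(𝓕 p) ((n : ℝ) / h + τ)‖ ≤ K := by
  obtain ⟨D, hD0, hD⟩ := exists_decay (𝓕 p)
  exact ⟨_, fun τ => tsum_bound hD (M := ‖(𝓕 p).toZeroAtInfty‖) (fun ξ => by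
    rw [← ZeroAtInftyContinuousMap.norm_toBCF_eq_norm]
    exact (𝓕 p).toZeroAtInfty.toBCF.norm_coe_le_norm ξ) hh τ⟩

/-- A smooth bump with support in `(c - r, c + r)` and value one on `[c - r', c + r']`. -/
theorem exists_bump (c : ℝ) {r' r : ℝ} (h0 : 0 < r') (h1 : r' < r) :
    ∃ p : 𝓢(ℝ, ℂ), HasCompactSupport p ∧ (∀ x, |x - c| ≤ r' → p x = 1) ∧
      (∀ x, r ≤ |x - c| → p x = 0) := by
  let b : ContDiffBump c := ⟨r', r, h0, h1⟩
  have hw' : ContDiff ℝ ((⊤ : ℕ∞) : WithTop ℕ∞) (fun x => ((b x : ℝ) : ℂ)) :=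
    Complex.ofRealCLM.contDiff.comp b.contDiff
  have hwc' : HasCompactSupport (fun x => ((b x : ℝ) : ℂ)) :=
    b.hasCompactSupport.comp_left (g := fun r : ℝ => (r : ℂ)) Complex.ofReal_zero
  refine ⟨hwc'.toSchwartzMap hw', hwc', ?_, ?_⟩
  · intro x hx
    change ((b x : ℝ) : ℂ) = 1
    rw [b.one_of_mem_closedBall (by rw [Metric.mem_closedBall, Real.dist_eq]; exact hx)]
    simp
  · intro x hx
    change ((b x : ℝ) : ℂ) = 0
    have : b x = 0 := b.zero_of_le_dist (by rw [Real.dist_eq]; exact hx)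
    rw [this]; simp

/-- Sampling inequality for almost periodic polynomials with frequencies in `(-A, A)`. -/
theorem sampling {A : ℝ} (hA : 0 < A) : ∃ K : ℝ, 0 ≤ K ∧ ∀ (ι : Type) (S : Finset ι) (x : ι → ℝ)
    (a : ι → ℂ), (∀ i ∈ S, |x i| < A) → ∀ B : ℝ, 
    (∀ n : ℤ, ‖∑ i ∈ S, a i * Complex.exp (Complex.I * x i * ((2 * π * n / (4 * A) : ℝ) : ℂ))‖ ≤ B) →
    ∀ t : ℝ, ‖∑ i ∈ S, a i * Complex.exp (Complex.I * x i * t)‖ ≤ K * B := by
  have h4 : 0 < 4 * A := by positivity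
  obtain ⟨w, hwc, hw1, hw0⟩ := exists_bump 0 hA (show A < 2 * A by linarith)
  obtain ⟨K, hK⟩ := fourier_summable w h4
  have hK0 : 0 ≤ K := le_trans (tsum_nonneg fun _ => norm_nonneg _) (hK 0).2
  refine ⟨(4 * A)⁻¹ * K, by positivity, ?_⟩
  intro ι S x a hx B hB t
  have hB0 : 0 ≤ B := le_trans (norm_nonneg _) (hB 0)
  set τ : ℝ := -t / (2 * π) with hτ
  obtain ⟨hs, hsK⟩ := hK τ
  -- the reproducing formula
  have hrep : ∀ i ∈ S, Complex.exp (Complex.I * x i * t) =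
      ∑' n : ℤ, ((4 * A)⁻¹ : ℝ) * (Complex.exp (((2 * π * (x i / (4 * A)) * n : ℝ) : ℂ) * Complex.I)
        * (𝓕 w) ((n : ℝ) / (4 * A) + τ)) := by
    intro i hi
    rw [← poisson_exact hwc h4 (x i) τ, tsum_eq_single 0]
    · have h1 : w (x i + 4 * A * ((0 : ℤ) : ℝ)) = 1 := by
        apply hw1
        simp only [Int.cast_zero, mul_zero, add_zero, sub_zero]
        exact (hx i hi).le
      rw [h1, one_mul]
      congr 1
      rw [hτ]
      push_cast
      have : (π : ℂ) ≠ 0 := by exact_mod_cast Real.pi_ne_zero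
      field_simp
      ring
    · intro n hn
      have h1 : w (x i + 4 * A * (n : ℝ)) = 0 := by
        apply hw0
        rw [sub_zero]
        have h2 : (1 : ℝ) ≤ |(n : ℝ)| := by
          have : (1 : ℤ) ≤ |n| := Int.one_le_abs hn
          exact_mod_cast this
        have h3 : |4 * A * (n : ℝ)| = 4 * A * |(n : ℝ)| := by
          rw [abs_mul, abs_of_pos h4]
        have h5 := abs_sub_abs_le_abs_sub (4 * A * (n : ℝ)) (-(x i))
        rw [abs_neg, sub_neg_eq_add, h3, add_comm] at h5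
        have := hx i hi
        nlinarith
      rw [h1, zero_mul]
  have hsumi : ∀ i, Summable fun n : ℤ => a i * (((4 * A)⁻¹ : ℝ) *
      (Complex.exp (((2 * π * (x i / (4 * A)) * n : ℝ) : ℂ) * Complex.I)
        * (𝓕 w) ((n : ℝ) / (4 * A) + τ))) := by
    intro i
    apply Summable.mul_left
    apply Summable.mul_left
    apply Summable.of_norm
    convert hs using 2 with n
    rw [norm_mul, Complex.norm_exp_ofReal_mul_I, one_mul]
  have e1 : (∑ i ∈ S, a i * Complex.exp (Complex.I * x i * t)) =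
      ∑' n : ℤ, ((4 * A)⁻¹ : ℝ) * (𝓕 w) ((n : ℝ) / (4 * A) + τ) *
        ∑ i ∈ S, a i * Complex.exp (Complex.I * x i * ((2 * π * n / (4 * A) : ℝ) : ℂ)) := by
    have e2 : (∑ i ∈ S, a i * Complex.exp (Complex.I * x i * t)) = ∑ i ∈ S, ∑' n : ℤ,
        a i * (((4 * A)⁻¹ : ℝ) * (Complex.exp (((2 * π * (x i / (4 * A)) * n : ℝ) : ℂ) * Complex.I)
        * (𝓕 w) ((n : ℝ) / (4 * A) + τ))) := by
      apply Finset.sum_congr rfl
      intro i hi
      rw [tsum_mul_left, ← hrep i hi]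
    rw [e2, ← Summable.tsum_finsetSum (fun i _ => hsumi i)]
    apply tsum_congr
    intro n
    rw [Finset.mul_sum]
    apply Finset.sum_congr rfl
    intro i _
    have : Complex.exp (((2 * π * (x i / (4 * A)) * n : ℝ) : ℂ) * Complex.I) =
        Complex.exp (Complex.I * x i * ((2 * π * n / (4 * A) : ℝ) : ℂ)) := by
      congr 1
      push_cast
      ring
    rw [this]
    ring
  rw [e1]
  have hs2 : Summable fun n : ℤ => (4 * A)⁻¹ * ‖(𝓕 w) ((n : ℝ) / (4 * A) + τ)‖ * B :=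
    (hs.mul_left _).mul_right _
  have hle : ∀ n : ℤ, ‖((4 * A)⁻¹ : ℝ) * (𝓕 w) ((n : ℝ) / (4 * A) + τ) *
        ∑ i ∈ S, a i * Complex.exp (Complex.I * x i * ((2 * π * n / (4 * A) : ℝ) : ℂ))‖ ≤
        (4 * A)⁻¹ * ‖(𝓕 w) ((n : ℝ) / (4 * A) + τ)‖ * B := by
    intro n
    rw [norm_mul, norm_mul, Complex.norm_real, Real.norm_eq_abs, abs_of_pos (inv_pos.mpr h4)]
    exact mul_le_mul_of_nonneg_left (hB n) (by positivity)
  refine (tsum_of_norm_bounded hs2.hasSum hle).trans ?_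
  rw [tsum_mul_right, tsum_mul_left]
  exact mul_le_mul_of_nonneg_right (mul_le_mul_of_nonneg_left hsK (by positivity)) hB0

end Pool.Agent.H5.HP
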