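import Mathlib
import Pool.Agent.H5.HP.Samp

set_option autoImplicit false

namespace Pool.Agent.H5.HP

open MeasureTheory Filter Topology SchwartzMap FourierTransform Set Pool.Agent.H5.RA
open scoped InnerProductSpace ENNReal Real

theorem twist_int {L : ℝ} (hL : 0 < L) :
    IsTwist (fun (n : ℤ) (x : ℝ) => Complex.exp (((2 * π * (x / L) * n : ℝ) : ℂ) * Complex.I)) where
  add := by
    intro n x y
    rw [← Complex.exp_add]
    congr 1
    push_cast
    ring
  zero := by intro n; simp
  norm := by intro n x; exact Complex.norm_exp_ofReal_mul_I _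
  cont := by intro n; fun_prop

theorem local_zero {H : Type*} [NormedAddCommGroup H] [InnerProductSpace ℂ H] [CompleteSpace H]
    {V : ℝ → H →L[ℂ] H} (hV : IsRep V) {ξ η : H} (hη : η ∈ (Hm V)ᗮ) {A : ℝ} (hA : 0 < A)
    (hper : ∀ x, ⟪η, V (x + 4 * A) ξ⟫_ℂ = ⟪η, V x ξ⟫_ℂ)
    (hm : AEMeasurable (fun x => ⟪η, V x ξ⟫_ℂ) (volume.restrict (Ioo (-A) A))) :
    ∀ x₀ ∈ Ioo (-A) A, ⟪η, V x₀ ξ⟫_ℂ = 0 := by
  intro x₀ hx₀
  have h4 : 0 < 4 * A := by positivity
  set F : ℝ → ℂ := fun x => ⟪η, V x ξ⟫_ℂ with hF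
  have hP : Function.Periodic F (4 * A) := hper
  have hx₀' : |x₀| < A := abs_lt.mpr hx₀
  set r : ℝ := (A - |x₀|) / 2 with hr
  have hr0 : 0 < r := by rw [hr]; linarith
  obtain ⟨u, huc, hu1, hu0⟩ := exists_bump x₀ (half_pos hr0) (half_lt_self hr0)
  have husupp : ∀ x, u x ≠ 0 → |x| < A := by
    intro x hx
    have h1 : |x - x₀| < r := by
      by_contra h
      exact hx (hu0 x (not_lt.mp h))
    have h2 := abs_sub_abs_le_abs_sub x x₀
    linarith
  have hfin : ∀ x : ℝ, (Function.support fun n : ℤ => u (x + 4 * A * n)).Finite := by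
    intro x
    apply Set.Subsingleton.finite
    intro n hn m hm
    have h1 := abs_lt.mp (husupp _ hn)
    have h2 := abs_lt.mp (husupp _ hm)
    have h3 : ((n : ℝ) - m) < 1 := by nlinarith
    have h4 : ((m : ℝ) - n) < 1 := by nlinarith
    have h5 : n - m < 1 := by exact_mod_cast h3
    have h6 : m - n < 1 := by exact_mod_cast h4
    omega
  set k : ℤ → ℂ := fun n => ((4 * A)⁻¹ : ℝ) * (𝓕 u) ((n : ℝ) / (4 * A) + 0) with hk
  obtain ⟨K, hK⟩ := fourier_summable u h4
  have hks : Summable fun n => ‖k n‖ := by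
    have : (fun n => ‖k n‖) = fun n : ℤ => (4 * A)⁻¹ * ‖(𝓕 u) ((n : ℝ) / (4 * A) + 0)‖ := by
      ext n
      rw [hk]
      simp only
      rw [norm_mul, Complex.norm_real, Real.norm_eq_abs, abs_of_pos (inv_pos.mpr h4)]
    rw [this]
    exact (hK 0).1.mul_left _
  have hpo : ∀ x : ℝ, ∑' n : ℤ, k n *
      Complex.exp (((2 * π * (x / (4 * A)) * n : ℝ) : ℂ) * Complex.I) =
      ∑' n : ℤ, u (x + 4 * A * n) := by
    intro x
    have h1 := poisson_exact huc h4 x 0
    have e1 : (∑' n : ℤ, u (x + 4 * A * n) *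
        Complex.exp (((-2 * π * (x + 4 * A * n) * 0 : ℝ) : ℂ) * Complex.I)) =
        ∑' n : ℤ, u (x + 4 * A * n) := by
      apply tsum_congr
      intro n
      simp
    rw [← e1, h1]
    apply tsum_congr
    intro n
    rw [hk]
    ring
  -- the product with `F`
  set g : ℝ → ℂ := fun y => u y * F y with hg
  have hgm : AEMeasurable g (volume : Measure ℝ) := by
    have e : g = (Ioo (-A) A).indicator (fun y => u y * F y) := by
      ext y
      by_cases hy : y ∈ Ioo (-A) A
      · rw [indicator_of_mem hy]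
      · rw [indicator_of_notMem hy, hg]
        simp only
        have : u y = 0 := by
          by_contra h
          exact hy (abs_lt.mp (husupp y h))
        rw [this, zero_mul]
    rw [e, aemeasurable_indicator_iff measurableSet_Ioo]
    exact u.continuous.measurable.aemeasurable.mul hm
  have hG : ∀ x : ℝ, (∑' n : ℤ, k n *
      Complex.exp (((2 * π * (x / (4 * A)) * n : ℝ) : ℂ) * Complex.I) * F x) =
      ∑' n : ℤ, g (x + 4 * A * n) := by
    intro x
    rw [tsum_mul_right, hpo, ← tsum_mul_right]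
    apply tsum_congr
    intro n
    rw [hg]
    simp only
    have h1 : F (x + 4 * A * n) = F x := by
      have := hP.int_mul n x
      rw [mul_comm (4 * A) (n : ℝ)]
      exact this
    rw [h1]
  have hGm : AEMeasurable (fun x : ℝ => ∑' n : ℤ, k n *
      Complex.exp (((2 * π * (x / (4 * A)) * n : ℝ) : ℂ) * Complex.I) * F x)
      (volume : Measure ℝ) := by
    simp_rw [hG]
    refine aemeasurable_of_tendsto_metrizable_ae (atTop : Filter (Finset ℤ))
      (f := fun (s : Finset ℤ) (x : ℝ) => ∑ n ∈ s, g (x + 4 * A * n)) ?_ ?_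
    · intro s
      apply Finset.aemeasurable_fun_sum
      intro n _
      exact aem_translate hgm (4 * A * n)
    · refine Filter.Eventually.of_forall fun x => ?_
      have hs : Summable fun n : ℤ => g (x + 4 * A * n) := by
        apply summable_of_finite_support
        refine (hfin x).subset ?_
        intro n hn
        rw [Function.mem_support] at hn ⊢
        exact left_ne_zero_of_mul hn
      exact hs.hasSum
  have hz := twisted_zero hV (twist_int h4) hks (ξ := fun _ => ξ) (η := fun _ => η)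
    (C := max ‖ξ‖ ‖η‖) (fun _ => le_max_left _ _) (fun _ => le_max_right _ _) (fun _ => hη) hGm x₀
  have hz' : (∑' n : ℤ, u (x₀ + 4 * A * n)) * F x₀ = 0 := by
    rw [← hpo, ← tsum_mul_right]
    exact hz
  have h1 : (∑' n : ℤ, u (x₀ + 4 * A * n)) = 1 := by
    rw [tsum_eq_single 0]
    · apply hu1
      simp only [Int.cast_zero, mul_zero, add_zero, sub_self, abs_zero]
      linarith
    · intro n hn
      by_contra h
      apply hn
      have h2 := abs_lt.mp (husupp _ h)
      have h3 : ((n : ℝ)) < 1 := by nlinarith [hx₀.1, hx₀.2]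
      have h5 : (-1 : ℝ) < n := by nlinarith [hx₀.1, hx₀.2]
      have h6 : n < 1 := by exact_mod_cast h3
      have h7 : -1 < n := by exact_mod_cast h5
      omega
  rw [h1, one_mul] at hz'
  exact hz'

end Pool.Agent.H5.HP
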