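import Mathlib
import Pool.Agent.H5.HP.Gns
import Pool.Agent.H5.HP.Meas

set_option autoImplicit false

namespace Pool.Agent.H5.HP

open MeasureTheory Filter Topology Set BoundedContinuousFunction
open scoped InnerProductSpace ENNReal Real ComplexOrder

variable {T : Type} [TopologicalSpace T]

/-- The character `exp (i x τ)` on two copies of the time set. -/
noncomputable def chr (τ : C(T, ℝ)) (x : ℝ) : T × Bool →ᵇ ℂ :=
  BoundedContinuousFunction.ofNormedAddCommGroup
    (fun s => Complex.exp (Complex.I * x * (τ s.1 : ℂ))) (by fun_prop) 1 (by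
      intro s
      rw [show Complex.I * (x : ℂ) * (τ s.1 : ℂ) = ((x * τ s.1 : ℝ) : ℂ) * Complex.I by
        push_cast; ring, Complex.norm_exp_ofReal_mul_I])

theorem chr_apply (τ : C(T, ℝ)) (x : ℝ) (s : T × Bool) :
    chr τ x s = Complex.exp (Complex.I * x * (τ s.1 : ℂ)) := rfl

/-- A function of the second component only. -/
noncomputable def two (T : Type) [TopologicalSpace T] (a : Bool → ℂ) : T × Bool →ᵇ ℂ :=
  BoundedContinuousFunction.ofNormedAddCommGroup (fun s => a s.2)
    (continuous_of_discreteTopology.comp continuous_snd) (max ‖a true‖ ‖a false‖) (by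
      rintro ⟨t, b⟩
      cases b
      · exact le_max_right _ _
      · exact le_max_left _ _)

theorem two_apply (a : Bool → ℂ) (s : T × Bool) : two T a s = a s.2 := rfl

theorem chr_add (τ : C(T, ℝ)) (x y : ℝ) : chr τ (x + y) = chr τ x * chr τ y := by
  ext s
  rw [BoundedContinuousFunction.mul_apply, chr_apply, chr_apply, chr_apply, ← Complex.exp_add]
  congr 1
  push_cast; ring

theorem chr_zero (τ : C(T, ℝ)) : chr τ 0 = 1 := by
  ext s
  rw [chr_apply]
  simp

theorem star_chr (τ : C(T, ℝ)) (x : ℝ) : star (chr τ x) = chr τ (-x) := by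
  ext s
  rw [BoundedContinuousFunction.star_apply, chr_apply, chr_apply, Complex.star_def,
    ← Complex.exp_conj]
  congr 1
  simp

theorem exists_functional' [Nonempty T] (τ : C(T, ℝ)) {I : Set ℝ} (hI : ∀ x ∈ I, -x ∈ I)
    {f : ℝ → ℂ}
    (hf : ∀ x ∈ I, f (-x) = (starRingEnd ℂ) (f x)) {C : ℝ} (hC : 0 ≤ C)
    (hB : ∀ (ι : Type) (S : Finset ι) (x : ι → ℝ) (a : ι → ℂ), (∀ i ∈ S, x i ∈ I) → ∀ B : ℝ,
      (∀ t : T, ‖∑ i ∈ S, a i * Complex.exp (Complex.I * x i * (τ t : ℂ))‖ ≤ B) →
      ‖∑ i ∈ S, a i * f (x i)‖ ≤ C * B) :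
    ∃ Θ : (T × Bool →ᵇ ℂ) →ₗ[ℂ] ℂ, (∀ a, 0 ≤ Θ (star a * a)) ∧
      ∀ x ∈ I, Θ (two T (fun b => if b then 1 else -1) * chr τ x) = f x := by
  classical
  set sgn : T × Bool →ᵇ ℂ := two T (fun b => if b then 1 else -1) with hsgn
  let V := Finsupp.supported ℂ ℝ I
  let TP₀ : (ℝ →₀ ℂ) →ₗ[ℂ] (T × Bool →ᵇ ℂ) := Finsupp.linearCombination ℂ (fun x => sgn * chr τ x)
  let TP : V →ₗ[ℝ] (T × Bool →ᵇ ℂ) := (TP₀.restrictScalars ℝ).comp V.subtype
  let φ₀ : (ℝ →₀ ℂ) →ₗ[ℂ] ℂ := Finsupp.linearCombination ℂ f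
  let φ : V →ₗ[ℝ] ℝ := Complex.reLm.comp ((φ₀.restrictScalars ℝ).comp V.subtype)
  have hTP : ∀ (c : V) (s : T × Bool), TP c s =
      (if s.2 then 1 else -1) * ∑ x ∈ (c : ℝ →₀ ℂ).support,
        (c : ℝ →₀ ℂ) x * Complex.exp (Complex.I * x * (τ s.1 : ℂ)) := by
    intro c s
    change (Finsupp.linearCombination ℂ (fun x => sgn * chr τ x) (c : ℝ →₀ ℂ)) s = _
    rw [Finsupp.linearCombination_apply, Finsupp.sum]
    have h1 : ∀ S : Finset ℝ, (∑ x ∈ S, (c : ℝ →₀ ℂ) x • (sgn * chr τ x)) s =
        ∑ x ∈ S, (c : ℝ →₀ ℂ) x * (sgn s * chr τ x s) := by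
      intro S
      induction S using Finset.induction_on with
      | empty => rfl
      | insert a S ha ih =>
        rw [Finset.sum_insert ha, Finset.sum_insert ha, ← ih]
        rfl
    rw [h1, Finset.mul_sum]
    apply Finset.sum_congr rfl
    intro x _
    rw [chr_apply, hsgn, two_apply]
    ring
  have hφ : ∀ c : V, φ c = (∑ x ∈ (c : ℝ →₀ ℂ).support, (c : ℝ →₀ ℂ) x * f x).re := by
    intro c
    change (Finsupp.linearCombination ℂ f (c : ℝ →₀ ℂ)).re = _
    rw [Finsupp.linearCombination_apply, Finsupp.sum]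
    rfl
  have hle : ∀ c : V, φ c ≤ subl C (TP c) := by
    intro c
    set d : ℝ →₀ ℂ := (c : ℝ →₀ ℂ) with hd
    have hdI : ∀ x ∈ d.support, x ∈ I := fun x hx =>
      (Finsupp.mem_supported ℝ d).mp c.2 hx
    set B : ℝ := ⨆ s : T × Bool, max (TP c s).re 0 with hBdef
    have h1 := hB (ℝ × Bool) (d.support ×ˢ Finset.univ) (fun i => if i.2 then i.1 else -i.1)
      (fun i => if i.2 then d i.1 / 2 else (starRingEnd ℂ) (d i.1) / 2) (by
        rintro ⟨x, b⟩ hi
        rw [Finset.mem_product] at hi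
        cases b
        · simpa using hI x (hdI x hi.1)
        · simpa using hdI x hi.1) B (by
        intro t
        rw [Finset.sum_product]
        have e1 : (∑ x ∈ d.support, ∑ b : Bool,
            (if b then d x / 2 else (starRingEnd ℂ) (d x) / 2) *
              Complex.exp (Complex.I * ((if b then x else -x : ℝ) : ℂ) * (τ t : ℂ))) =
            (((∑ x ∈ d.support, d x * Complex.exp (Complex.I * x * (τ t : ℂ))).re : ℝ) : ℂ) := by
          rw [Complex.re_eq_add_conj, map_sum, ← Finset.sum_add_distrib, Finset.sum_div]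
          apply Finset.sum_congr rfl
          intro x _
          rw [Fintype.sum_bool, map_mul, ← Complex.exp_conj]
          simp only [if_true, map_mul, Complex.conj_I, Complex.conj_ofReal]
          simp
          ring
        rw [e1, Complex.norm_real, Real.norm_eq_abs, abs_le]
        have h2 : max (TP c (t, true)).re 0 ≤ B := le_ciSup (bdd_subl (TP c)) (t, true)
        have h3 : max (TP c (t, false)).re 0 ≤ B := le_ciSup (bdd_subl (TP c)) (t, false)
        rw [hTP] at h2 h3
        simp only [if_true, one_mul] at h2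
        simp only [Bool.false_eq_true, if_false, neg_mul, one_mul, Complex.neg_re] at h3
        constructor
        · linarith [le_max_left (-(∑ x ∈ d.support, d x *
            Complex.exp (Complex.I * x * (τ t : ℂ))).re) 0]
        · exact (le_max_left _ _).trans h2)
    have e2 : (∑ i ∈ d.support ×ˢ (Finset.univ : Finset Bool),
        (if i.2 then d i.1 / 2 else (starRingEnd ℂ) (d i.1) / 2) *
          f (if i.2 then i.1 else -i.1)) = ((φ c : ℝ) : ℂ) := by
      rw [hφ, Finset.sum_product, Complex.re_eq_add_conj, map_sum, ← Finset.sum_add_distrib,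
        Finset.sum_div]
      apply Finset.sum_congr rfl
      intro x hx
      rw [Fintype.sum_bool, map_mul]
      simp only [if_true, Bool.false_eq_true, if_false]
      rw [hf x (hdI x hx)]
      ring
    rw [e2, Complex.norm_real, Real.norm_eq_abs] at h1
    exact (le_abs_self _).trans h1
  obtain ⟨Θ, hΘ, hΘT⟩ := exists_positive hC TP φ hle
  refine ⟨Θ, hΘ, ?_⟩
  intro x hx
  have hs : ∀ z : ℂ, (z * Θ (sgn * chr τ x)).re = (z * f x).re := by
    intro z
    have hmem : Finsupp.single x z ∈ V := Finsupp.single_mem_supported ℝ z hx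
    have h1 := hΘT ⟨Finsupp.single x z, hmem⟩
    have e1 : TP ⟨Finsupp.single x z, hmem⟩ = z • (sgn * chr τ x) := by
      change Finsupp.linearCombination ℂ (fun x => sgn * chr τ x) (Finsupp.single x z) = _
      rw [Finsupp.linearCombination_single]
    have e2 : φ ⟨Finsupp.single x z, hmem⟩ = (z * f x).re := by
      change (Finsupp.linearCombination ℂ f (Finsupp.single x z)).re = _
      rw [Finsupp.linearCombination_single, smul_eq_mul]
    rw [e1, e2, map_smul, smul_eq_mul] at h1
    exact h1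
  apply Complex.ext
  · have := hs 1
    rwa [one_mul, one_mul] at this
  · have := hs (-Complex.I)
    simpa using this

end Pool.Agent.H5.HP
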