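import Mathlib
import Pool.Agent.H5.HP.Rep

set_option autoImplicit false

namespace Pool.Agent.H5.HP

open MeasureTheory Filter Topology Set BoundedContinuousFunction
open scoped InnerProductSpace ENNReal ComplexOrder

variable {T : Type} [TopologicalSpace T]

theorem exists_rep [Nonempty T] (τ : C(T, ℝ)) {I : Set ℝ} (hI : ∀ x ∈ I, -x ∈ I)
    {f : ℝ → ℂ}
    (hf : ∀ x ∈ I, f (-x) = (starRingEnd ℂ) (f x)) {C : ℝ} (hC : 0 ≤ C)
    (hB : ∀ (ι : Type) (S : Finset ι) (x : ι → ℝ) (a : ι → ℂ), (∀ i ∈ S, x i ∈ I) → ∀ B : ℝ,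
      (∀ t : T, ‖∑ i ∈ S, a i * Complex.exp (Complex.I * x i * (τ t : ℂ))‖ ≤ B) →
      ‖∑ i ∈ S, a i * f (x i)‖ ≤ C * B) :
    ∃ (H : Type) (_ : NormedAddCommGroup H) (_ : InnerProductSpace ℂ H) (_ : CompleteSpace H)
      (U : ℝ → H →L[ℂ] H) (Ωp Ωm : H), IsRep U ∧
      (∀ x ∈ I, f x = ⟪Ωp, U x Ωp⟫_ℂ - ⟪Ωm, U x Ωm⟫_ℂ) ∧
      (∀ (c : ℝ →₀ ℂ) (ζ : H), (∀ t : T, 0 ≤ c.sum fun x a => a * Complex.exp (Complex.I * x * (τ t : ℂ))) →
        0 ≤ c.sum fun x a => a * ⟪ζ, U x ζ⟫_ℂ) ∧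
      (∀ (c : ℝ →₀ ℂ) (ζ : H) (B : ℝ),
        (∀ t : T, ‖c.sum fun x a => a * Complex.exp (Complex.I * x * (τ t : ℂ))‖ ≤ B) →
        ‖c.sum fun x a => a * ⟪ζ, U x ζ⟫_ℂ‖ ≤ ‖ζ‖ ^ 2 * B) ∧
      (∀ x y : ℝ, (∀ t : T, Complex.exp (Complex.I * x * (τ t : ℂ)) =
        Complex.exp (Complex.I * y * (τ t : ℂ))) → U x = U y) := by
  classical
  obtain ⟨Θ, hΘ, hΘf⟩ := exists_functional' τ hI hf hC hB
  obtain ⟨H, i1, i2, i3, π, κ, hπ⟩ := exists_gns Θ hΘ
  have hadj : ∀ (a : T × Bool →ᵇ ℂ) (ζ ζ' : H), ⟪π a ζ, ζ'⟫_ℂ = ⟪ζ, π (star a) ζ'⟫_ℂ := by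
    intro a ζ ζ'
    rw [map_star, ContinuousLinearMap.star_eq_adjoint, ContinuousLinearMap.adjoint_inner_right]
  have hmul : ∀ (a b : T × Bool →ᵇ ℂ) (ζ : H), π (a * b) ζ = π a (π b ζ) := by
    intro a b ζ
    rw [map_mul]; rfl
  have hsum : ∀ (c : ℝ →₀ ℂ) (ζ : H), (c.sum fun x a => a * ⟪ζ, π (chr τ x) ζ⟫_ℂ) =
      ⟪ζ, π (∑ x ∈ c.support, c x • chr τ x) ζ⟫_ℂ := by
    intro c ζ
    rw [map_sum, _root_.sum_apply, inner_sum, Finsupp.sum]
    apply Finset.sum_congr rfl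
    intro x _
    rw [map_smul, _root_.smul_apply, inner_smul_right]
  have hval : ∀ (c : ℝ →₀ ℂ) (s : T × Bool), (∑ x ∈ c.support, c x • chr τ x) s =
      c.sum fun x a => a * Complex.exp (Complex.I * x * (τ s.1 : ℂ)) := by
    intro c s
    have h1 : ∀ S : Finset ℝ, (∑ x ∈ S, c x • chr τ x) s = ∑ x ∈ S, c x * chr τ x s := by
      intro S
      induction S using Finset.induction_on with
      | empty => rfl
      | insert a S ha ih =>
        rw [Finset.sum_insert ha, Finset.sum_insert ha, ← ih]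
        rfl
    rw [h1, Finsupp.sum]
    rfl
  refine ⟨H, i1, i2, i3, fun x => π (chr τ x), κ (two T fun b => if b then 1 else 0),
    κ (two T fun b => if b then 0 else 1), ?_, ?_, ?_, ?_, ?_⟩
  · refine ⟨?_, ?_, ?_⟩
    · intro x y ζ
      rw [chr_add, hmul]
    · intro ζ
      rw [chr_zero, map_one]; rfl
    · intro x ζ ζ'
      rw [hadj, ← hmul, star_chr, ← chr_add, neg_add_cancel, chr_zero, map_one]
      rfl
  · intro x hx
    rw [hπ, hπ, ← map_sub, ← hΘf x hx]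
    congr 1
    ext ⟨t, b⟩
    simp only [BoundedContinuousFunction.mul_apply, BoundedContinuousFunction.sub_apply,
      BoundedContinuousFunction.star_apply, two_apply]
    cases b <;> simp
  · intro c ζ hc
    rw [hsum]
    -- the square root
    set p : T × Bool →ᵇ ℂ := ∑ x ∈ c.support, c x • chr τ x with hp
    let q : T × Bool →ᵇ ℂ := BoundedContinuousFunction.ofNormedAddCommGroup
      (fun s => ((Real.sqrt (p s).re : ℝ) : ℂ)) (by
        have := p.continuous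
        fun_prop) (Real.sqrt ‖p‖) (by
        intro s
        rw [Complex.norm_real, Real.norm_eq_abs, abs_of_nonneg (Real.sqrt_nonneg _)]
        exact Real.sqrt_le_sqrt ((Complex.re_le_norm _).trans (p.norm_coe_le_norm s)))
    have hpq : p = star q * q := by
      ext s
      have h1 : 0 ≤ p s := by
        rw [hp, hval]; exact hc s.1
      rw [Complex.nonneg_iff] at h1
      change p s = star (((Real.sqrt (p s).re : ℝ) : ℂ)) * ((Real.sqrt (p s).re : ℝ) : ℂ)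
      rw [Complex.star_def, Complex.conj_ofReal, ← Complex.ofReal_mul, Real.mul_self_sqrt h1.1]
      apply Complex.ext
      · simp
      · simpa using h1.2.symm
    rw [hpq, hmul]
    have h2 := hadj q ζ (π q ζ)
    rw [← h2, inner_self_eq_norm_sq_to_K]
    have : (0 : ℝ) ≤ ‖π q ζ‖ ^ 2 := by positivity
    change (0 : ℂ) ≤ ((‖π q ζ‖ : ℝ) : ℂ) ^ 2
    rw [← Complex.ofReal_pow]
    exact Complex.zero_le_real.mpr this
  · intro c ζ B hcB
    rw [hsum]
    set p : T × Bool →ᵇ ℂ := ∑ x ∈ c.support, c x • chr τ x with hp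
    have hB0 : 0 ≤ B := by
      obtain ⟨t⟩ := ‹Nonempty T›
      exact (norm_nonneg _).trans (hcB t)
    have hpB : ‖p‖ ≤ B := by
      rw [BoundedContinuousFunction.norm_le hB0]
      intro s
      rw [hp, hval]
      exact hcB s.1
    have h3 : ‖π p‖ ≤ ‖p‖ := NonUnitalStarAlgHom.norm_apply_le π p
    calc ‖⟪ζ, π p ζ⟫_ℂ‖ ≤ ‖ζ‖ * ‖π p ζ‖ := norm_inner_le_norm _ _
      _ ≤ ‖ζ‖ * (‖π p‖ * ‖ζ‖) := mul_le_mul_of_nonneg_left ((π p).le_opNorm ζ) (norm_nonneg _)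
      _ ≤ ‖ζ‖ * (B * ‖ζ‖) := by
        apply mul_le_mul_of_nonneg_left _ (norm_nonneg _)
        exact mul_le_mul_of_nonneg_right (h3.trans hpB) (norm_nonneg _)
      _ = ‖ζ‖ ^ 2 * B := by ring
  · intro x y hxy
    have : chr τ x = chr τ y := by
      ext s
      rw [chr_apply, chr_apply]
      exact hxy s.1
    simp only [this]

end Pool.Agent.H5.HP
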